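import Pool.Agent.Lob6.Bb0A
import Pool.Agent.Lob34.CvJ

/-!
# Words with total zero and both ends bad: the conditions `LRW` for `u = 1`
-/

namespace Pool.Agent.Lob6

open Pool.Agent.Lob5 Pool.Agent.Lob89 Pool.Agent.Lob12 Pool.Agent.Lob34

variable {K h : ℕ} {ld al c : ℕ → Prop}

theorem cw1 (W : WW K h ld al c) (h6 : 6 ≤ K) (hc1 : c 1) : CW K 1 h ld al (rc c 1) :=
  W.cw (u := 1) rfl (by omega) hc1 (start2 W h6 hc1).1

theorem lr0 (W : WW K h ld al c) (h6 : 6 ≤ K) (hc : c K) (hc1 : c 1) (h0 : wk c K = 0) {n2 : ℕ}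
    (up : ∀ v, 1 ≤ v → v < K → ld v → wk c v ≤ 2 * n2 + 3)
    (ex : ∃ v, 1 ≤ v ∧ v < K ∧ ld v ∧ wk c v = 2 * n2 + 3) :
    LRW (cw1 W h6 hc1).owR.lr (2 * h + 1) n2 0 := by
  have hK := W.hK
  have e2 := end2 W h6 hc
  have s2 := start2 W h6 hc1
  have tK := tot c K
  have wK := wk_oe c K
  have hP := PR_c (cw1 W h6 hc1)
  have hQ := QR_c (cw1 W h6 hc1)
  have s1 := stepB c (v := 1) le_rfl hc1
  rw [show (1 : ℕ) - 1 = 0 by rfl] at hP hQ s1
  have z1 : ob c 0 = 0 := rfl
  have z2 : eb c 0 = 0 := rfl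
  have z3 : og c 0 = 0 := rfl
  have z4 : eg c 0 = 0 := rfl
  rw [z1, z2, z3, z4] at s1
  rw [z1] at hP
  rw [z2] at hQ
  have hV : (cw1 W h6 hc1).owR.lr.V n2 := by
    refine (cw1 W h6 hc1).VR1 ?_ ?_
    · rw [rc_gt (by omega)]
      exact fun h => h s2.1
    · have r1 := (rc_cnt1 c (le_refl 1)).2.2.2
      have r2 := (rc_cnt2 c (show 1 ≤ K - 1 by omega)).2.2.2
      obtain ⟨v, v1, v2, v3, v4⟩ := ex
      obtain ⟨v5, v6, hv⟩ := vf W v1 v2 v3
      have tv := tot c v
      have wv := wk_oe c v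
      have m1 := mono4 c v5
      have m2 := mono4 c (show v ≤ K - 1 by omega)
      omega
  have hh : (cw1 W h6 hc1).owR.lr.h = h := rfl
  have J := fun v (h1 : 1 < v) (h2 : v < K) => JR1k (cw1 W h6 hc1) h1 h2
  have kb := fun v (h1 : 1 < v) (h2 : v < K) (hl : ld v) =>
    kb_iff (cw1 W h6 hc1) (by omega : 1 ≤ v) (by omega) (W.dif v (by omega) h2 hl)
  have hMC := LR.MC_max (cw1 W h6 hc1).owR.lr
  have hbad : ∀ e, (cw1 W h6 hc1).owR.lr.bad e ↔ rc c 1 e := fun e => Iff.rfl
  generalize (cw1 W h6 hc1).owR.lr = S at *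
  have key : ∀ v, 1 ≤ v → v < K → ld v → 2 ≤ v ∧ v + 2 ≤ K ∧
      ((¬ c v ∧ c (v + 1) ∧ (S.J v : ℤ) = h + 2 - (og c v - eb c v) + (v % 2 : ℕ)) ∨
      (c v ∧ ¬ c (v + 1) ∧ (S.J v : ℤ) = h + 1 - (og c v - eb c v))) ∧
      og c v ≤ eb c v + n2 + 2 := by
    intro v h1 h2 hl
    obtain ⟨r1, r2, h3⟩ := vf W h1 h2 hl
    obtain ⟨j1, j2, j3, j4⟩ := J v r1 h2
    have tv := tot c v
    have wv := wk_oe c v
    have l1 := up v h1 h2 hl
    refine ⟨r1, r2, ?_, ?_⟩
    · rcases h3 with ⟨c1, c2, -⟩ | ⟨c1, c2, -⟩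
      · refine Or.inl ⟨c1, c2, ?_⟩
        rcases Nat.mod_two_eq_zero_or_one v with pv | pv
        · have := j1 c1 c2 pv
          omega
        · have := j3 c1 c2 pv
          omega
      · refine Or.inr ⟨c1, c2, ?_⟩
        rcases Nat.mod_two_eq_zero_or_one v with pv | pv
        · have := j4 c1 c2 pv
          omega
        · have := j2 c1 c2 pv
          omega
    · rcases Nat.mod_two_eq_zero_or_one v with pv | pv <;> omega
  clear J
  have low : ∀ v, 1 ≤ v → v < K → ld v → h ≤ S.J v + n2 + 1 := by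
    intro v h1 h2 hl
    obtain ⟨r1, r2, ⟨_, _, h3⟩ | ⟨_, _, h3⟩, h4⟩ := key v h1 h2 hl
    · rcases Nat.mod_two_eq_zero_or_one v with pv | pv <;> omega
    · rcases Nat.mod_two_eq_zero_or_one v with pv | pv <;> omega
  -- the sums at two vertices
  have dd : ∀ a z, 1 ≤ a → a < K → 1 ≤ z → z < K → al a → ld z → ¬ al z →
      S.J a ≤ S.J z + S.Q + 1 ∧
      (¬ ((a % 2 = 0 ∧ ¬ c a) ∨ (a % 2 = 1 ∧ c a)) → S.J a ≤ S.J z + S.Q ∧
        (S.Q < S.P → S.J a ≤ S.J z + S.P)) ∧
      ((a % 2 = 0 ∧ ¬ c a) ∨ (a % 2 = 1 ∧ c a) → S.J a ≤ S.J z + S.P) := by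
    intro a z a1 a2 z1 z2 ha hz1 hz2
    have hla := W.al_ld a ha
    obtain ⟨ra1, ra2, fa⟩ := vf W a1 (by omega) hla
    obtain ⟨rz1, rz2, fz⟩ := vf W z1 (by omega) hz1
    obtain ⟨-, -, ka, -⟩ := key a a1 a2 hla
    obtain ⟨-, -, kz, -⟩ := key z z1 z2 hz1
    have ta := tot c a
    have tz := tot c z
    have m1 := mono4 c (show 2 ≤ a by omega)
    have m2 := mono4 c (show 2 ≤ z by omega)
    have m3 := mono4 c (show a + 1 ≤ K - 1 by omega)
    have m4 := mono4 c (show z + 1 ≤ K - 1 by omega)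
    have m7 := mono4 c (show a ≤ K - 2 by omega)
    have m8 := mono4 c (show z ≤ K - 2 by omega)
    clear hV hMC hbad kb key low ex up
    rcases Nat.lt_or_ge z a with hza | hza
    · have m5 := mono4 c (show z ≤ a - 1 by omega)
      have m6 := mono4 c (show z + 1 ≤ a by omega)
      rcases Nat.mod_two_eq_zero_or_one a with pa | pa
      · rcases ka with ⟨ca, ca', ja⟩ | ⟨ca, ca', ja⟩
        · refine ⟨?_, fun hk => absurd (Or.inl ⟨pa, ca⟩) hk, fun _ => ?_⟩
          · rcases fa with fa | fa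
            · rcases kz with ⟨-, -, jz⟩ | ⟨-, -, jz⟩ <;> omega
            · exact absurd fa.1 ca
          · rcases fa with fa | fa
            · rcases kz with ⟨-, -, jz⟩ | ⟨-, -, jz⟩ <;> omega
            · exact absurd fa.1 ca
        · refine ⟨?_, fun _ => ⟨?_, fun _ => ?_⟩, fun hk => ?_⟩
          · rcases fa with fa | fa
            · exact absurd ca fa.1
            · rcases kz with ⟨-, -, jz⟩ | ⟨-, -, jz⟩ <;> omega
          · rcases fa with fa | fa
            · exact absurd ca fa.1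
            · rcases kz with ⟨-, -, jz⟩ | ⟨-, -, jz⟩ <;> omega
          · rcases fa with fa | fa
            · exact absurd ca fa.1
            · rcases kz with ⟨-, -, jz⟩ | ⟨-, -, jz⟩ <;> omega
          · rcases hk with hk | hk
            · exact absurd ca hk.2
            · omega
      · rcases ka with ⟨ca, ca', ja⟩ | ⟨ca, ca', ja⟩
        · refine ⟨?_, fun _ => ⟨?_, fun _ => ?_⟩, fun hk => ?_⟩
          · rcases fa with fa | fa
            · rcases kz with ⟨-, -, jz⟩ | ⟨-, -, jz⟩ <;> omega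
            · exact absurd fa.1 ca
          · rcases fa with fa | fa
            · rcases kz with ⟨-, -, jz⟩ | ⟨-, -, jz⟩ <;> omega
            · exact absurd fa.1 ca
          · rcases fa with fa | fa
            · rcases kz with ⟨-, -, jz⟩ | ⟨-, -, jz⟩ <;> omega
            · exact absurd fa.1 ca
          · rcases hk with hk | hk
            · omega
            · exact absurd hk.2 ca
        · refine ⟨?_, fun hk => absurd (Or.inr ⟨pa, ca⟩) hk, fun _ => ?_⟩
          · rcases fa with fa | fa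
            · exact absurd ca fa.1
            · rcases kz with ⟨-, -, jz⟩ | ⟨-, -, jz⟩ <;> omega
          · rcases fa with fa | fa
            · exact absurd ca fa.1
            · rcases kz with ⟨-, -, jz⟩ | ⟨-, -, jz⟩ <;> omega
    · have hne : z ≠ a := by
        rintro rfl
        exact hz2 ha
      have m5 := mono4 c (show a ≤ z - 1 by omega)
      have m6 := mono4 c (show a + 1 ≤ z by omega)
      rcases Nat.mod_two_eq_zero_or_one a with pa | pa
      · rcases ka with ⟨ca, ca', ja⟩ | ⟨ca, ca', ja⟩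
        · rcases fa with fa | fa
          swap
          · exact absurd fa.1 ca
          refine ⟨?_, fun hk => absurd (Or.inl ⟨pa, ca⟩) hk, fun _ => ?_⟩
          · rcases kz with ⟨-, -, jz⟩ | ⟨-, -, jz⟩ <;> omega
          · rcases kz with ⟨-, -, jz⟩ | ⟨-, -, jz⟩ <;> omega
        · rcases fa with fa | fa
          · exact absurd ca fa.1
          refine ⟨?_, fun _ => ⟨?_, fun _ => ?_⟩, fun hk => ?_⟩
          · rcases kz with ⟨-, -, jz⟩ | ⟨-, -, jz⟩ <;> omega
          · rcases kz with ⟨-, -, jz⟩ | ⟨-, -, jz⟩ <;> omega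
          · rcases kz with ⟨cz, -, jz⟩ | ⟨cz, -, jz⟩
            · omega
            · rcases fz with fz | fz
              · exact absurd cz fz.1
              · rcases Nat.mod_two_eq_zero_or_one z with pz | pz <;> omega
          · rcases hk with hk | hk
            · exact absurd ca hk.2
            · omega
      · rcases ka with ⟨ca, ca', ja⟩ | ⟨ca, ca', ja⟩
        · rcases fa with fa | fa
          swap
          · exact absurd fa.1 ca
          refine ⟨?_, fun _ => ⟨?_, fun _ => ?_⟩, fun hk => ?_⟩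
          · rcases kz with ⟨-, -, jz⟩ | ⟨-, -, jz⟩ <;> omega
          · rcases kz with ⟨-, -, jz⟩ | ⟨-, -, jz⟩ <;> omega
          · rcases kz with ⟨cz, -, jz⟩ | ⟨cz, -, jz⟩
            · rcases fz with fz | fz
              · rcases Nat.mod_two_eq_zero_or_one z with pz | pz <;> omega
              · exact absurd fz.1 cz
            · rcases fz with fz | fz
              · exact absurd cz fz.1
              · rcases Nat.mod_two_eq_zero_or_one z with pz | pz <;> omega
          · rcases hk with hk | hk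
            · omega
            · exact absurd hk.2 ca
        · rcases fa with fa | fa
          · exact absurd ca fa.1
          refine ⟨?_, fun hk => absurd (Or.inr ⟨pa, ca⟩) hk, fun _ => ?_⟩
          · rcases kz with ⟨-, -, jz⟩ | ⟨-, -, jz⟩ <;> omega
          · rcases kz with ⟨cz, -, jz⟩ | ⟨cz, -, jz⟩
            · rcases Nat.mod_two_eq_zero_or_one z with pz | pz <;> omega
            · rcases Nat.mod_two_eq_zero_or_one z with pz | pz <;> omega
  refine ⟨?_, ?_, ?_, ?_, ?_, ?_, ?_, ?_, ?_, ?_, ?_, ?_, ?_, ?_, ?_⟩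
  · omega
  · omega
  · intro i h1 h2 h3 h4 h5
    have := hMC i h1 h2 h3 h4 h5
    omega
  · intro i h1 h2
    omega
  · exact hV
  · intro a h1 h2 h3
    have := low a h1 h2 (W.al_ld a h3)
    omega
  · intro x h1 h2 h3 _
    have := low x h1 h2 h3
    omega
  · intro z h1 h2 h3 _
    have := low z h1 h2 h3
    omega
  · intro z h1 h2 h3 _
    have m1 := mono4 c (show z ≤ K by omega)
    rcases key z h1 h2 h3 with ⟨-, -, ⟨-, -, jz⟩ | ⟨-, -, jz⟩, -⟩ <;> omega
  · intro a z a1 a2 z1 z2 ha hb hz hz'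
    have h1 := dd a z a1 a2 z1 z2 ha hz hz'
    have hla := W.al_ld a ha
    have h2 := (kb a (vf W a1 a2 hla).1 a2 hla).1 ((hbad _).1 hb)
    exact ⟨Or.inl h1.1, fun _ => h1.2.2 h2⟩
  · intro a x a1 a2 x1 x2 ha hb hx hx'
    have h1 := dd a x a1 a2 x1 x2 ha hx hx'
    have hla := W.al_ld a ha
    have h2 := (kb a (vf W a1 a2 hla).1 a2 hla).1 ((hbad _).1 hb)
    have := h1.2.2 h2
    omega
  · intro a z a1 a2 z1 z2 ha hb hz hz' _
    have h1 := dd a z a1 a2 z1 z2 ha hz hz'
    have hla := W.al_ld a ha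
    have h2 := (h1.2.1 fun h => hb ((hbad _).2 ((kb a (vf W a1 a2 hla).1 a2 hla).2 h))).1
    omega
  · intro a z a1 a2 z1 z2 ha hb hz hz' _ T hT
    have h1 := dd a z a1 a2 z1 z2 ha hz hz'
    have hla := W.al_ld a ha
    have h2 := (h1.2.1 fun h => hb ((hbad _).2 ((kb a (vf W a1 a2 hla).1 a2 hla).2 h))).1
    have h3 : T = ∅ := by
      rw [Finset.eq_empty_iff_forall_notMem]
      intro i hi
      obtain ⟨i1, i2, -, i3, -, i4⟩ := hT i hi
      have := low i i1 i2 i3
      omega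
    rw [h3, Finset.card_empty]
    omega
  · rcases Nat.lt_or_ge S.Q S.P with hlt | hge
    · right
      intro a x a1 a2 x1 x2 ha hb hx hx'
      have h1 := dd a x a1 a2 x1 x2 ha hx hx'
      have hla := W.al_ld a ha
      have h2 := (h1.2.1 fun h => hb ((hbad _).2 ((kb a (vf W a1 a2 hla).1 a2 hla).2 h))).2 hlt
      omega
    · exact Or.inl hge
  · left
    have m := mono4 c (show 2 ≤ K - 2 by omega)
    omega

end Pool.Agent.Lob6
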