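import Pool.Agent.Lob6.Bb0B
import Pool.Agent.Lob6.Bb0C
import Pool.Agent.Lob12.P1Split

/-!
# Words with total zero and both ends bad: the covering
-/

namespace Pool.Agent.Lob6

open Pool.Agent.Lob5 Pool.Agent.Lob89 Pool.Agent.Lob12 Pool.Agent.Lob34

variable {K h : ℕ} {ld al c : ℕ → Prop}

/-- the counts of the mirror colours -/
theorem mir_cnt (c : ℕ → Prop) (hK : K % 2 = 0) {x : ℕ} (hx : x ≤ K) :
    ob (fun e => c (K + 1 - e)) x + eb c (K - x) = eb c K ∧
    eb (fun e => c (K + 1 - e)) x + ob c (K - x) = ob c K ∧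
    og (fun e => c (K + 1 - e)) x + eg c (K - x) = eg c K ∧
    eg (fun e => c (K + 1 - e)) x + og c (K - x) = og c K := by
  refine ⟨cnM1 (K := K) (u := 0) _ _ hx ?_, cnM1 (K := K) (u := 0) _ _ hx ?_,
    cnM1 (K := K) (u := 0) _ _ hx ?_, cnM1 (K := K) (u := 0) _ _ hx ?_⟩ <;>
  · intro y h1 h2
    constructor
    · rintro ⟨h3, h4⟩
      exact ⟨by omega, h4⟩
    · rintro ⟨h3, h4⟩
      exact ⟨by omega, h4⟩

/-- the walk of the mirror colours -/
theorem mir_wk (c : ℕ → Prop) (hK : K % 2 = 0) {x : ℕ} (hx : x ≤ K) :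
    wk (fun e => c (K + 1 - e)) x + wk c (K - x) = wk c K := by
  have h1 := mir_cnt c hK hx
  have t1 := wk_oe (fun e => c (K + 1 - e)) x
  have t2 := wk_oe c (K - x)
  have t3 := wk_oe c K
  omega

/-- the exceptional pairs of a word and of its mirror exclude each other -/
theorem VX_mirror (W : WW K h ld al c) (h1 : VX K ld al c)
    (h2 : VX K (fun i => ld (K - i)) (fun i => al (K - i)) (fun e => c (K + 1 - e))) : False := by
  have hK := W.hK
  obtain ⟨z, a, z1, hza, aK, hz, -, ha, pz, cz, pa, ca, o1, o2⟩ := h1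
  obtain ⟨z', a', z1', hza', aK', hz', -, ha', pz', cz', pa', ca', o1', o2'⟩ := h2
  have m1 := mir_cnt c (K := K) (by omega) (x := z') (by omega)
  have m2 := mir_cnt c (K := K) (by omega) (x := a') (by omega)
  have m3 := mir_cnt c (K := K) (by omega) (x := K) le_rfl
  rw [Nat.sub_self] at m3
  have y3 : og c 0 = 0 := rfl
  have y4 : eg c 0 = 0 := rfl
  rw [y3, y4] at m3
  obtain ⟨-, -, fa⟩ := vf W (by omega) aK (W.al_ld a ha)
  obtain ⟨-, -, fz⟩ := vf W z1 (by omega) hz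
  have ma := mono4 c (show a ≤ K by omega)
  have ma' := mono4 c (show a + 1 ≤ K by omega)
  have mz := mono4 c (show K - a' ≤ K - z' by omega)
  have mz' := mono4 c (show K - z' ≤ K by omega)
  have mza := mono4 c (show z + 1 ≤ a by omega)
  rcases fz with fz | fz
  swap
  · exact cz fz.1
  rcases fa with fa | fa
  · exact fa.1 ca
  have c1 : K - a' < z := by
    by_contra hcon
    have := mono4 c (show z ≤ K - a' by omega)
    omega
  have c2 : a < K - z' := by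
    by_contra hcon
    have := mono4 c (show K - z' ≤ a by omega)
    omega
  have c3 := mono4 c (show K - a' ≤ z by omega)
  have c4 := mono4 c (show a ≤ K - z' by omega)
  omega

/-- total zero, both ends bad -/
theorem cover_bb {n2 : ℕ}
    (hD : ∀ (K h : ℕ) (ld al c : ℕ → Prop), WW K h ld al c → 6 ≤ K → c K → c 1 → wk c K = 0 →
      (∃ v, 1 ≤ v ∧ v < K ∧ ld v ∧ wk c v ≤ -(2 * n2 + 4 : ℤ)) → Good K ld al n2 0)
    (W0 : Wd K ld al) (W : WW K h ld al c) (hc : c K) (hc1 : c 1) (h0 : wk c K = 0) :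
    Gd K ld al n2 := by
  have h6 := W0.six
  have hK := W.hK
  have W' := ww_mirror W
  have e1 : K + 1 - K = 1 := by omega
  have e2 : K + 1 - 1 = K := by omega
  have hc' : (fun e => c (K + 1 - e)) K := by
    show c (K + 1 - K)
    rwa [e1]
  have hc1' : (fun e => c (K + 1 - e)) 1 := by
    show c (K + 1 - 1)
    rwa [e2]
  have h0' : wk (fun e => c (K + 1 - e)) K = 0 := by rw [wk_mirror, h0]
  have good : ∀ {ld al : ℕ → Prop}, Good K ld al n2 0 → Gd K ld al n2 :=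
    fun h => ⟨0, Nat.zero_le _, Or.inl h⟩
  have wkm : ∀ v, v ≤ K → wk (fun e => c (K + 1 - e)) (K - v) = - wk c v := by
    intro v hv
    have := mir_wk c (K := K) (by omega) (x := K - v) (by omega)
    rw [show K - (K - v) = v by omega] at this
    omega
  have wkm' : ∀ v, v ≤ K → wk (fun e => c (K + 1 - e)) v = - wk c (K - v) := by
    intro v hv
    have := mir_wk c (K := K) (by omega) (x := v) (by omega)
    omega
  have ldm : ∀ v, v ≤ K → (ld (K - (K - v)) ↔ ld v) := by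
    intro v hv
    rw [show K - (K - v) = v by omega]
  by_cases c1 : ∃ v, 1 ≤ v ∧ v < K ∧ ld v ∧ wk c v ≤ -(2 * n2 + 4 : ℤ)
  · exact good (hD K h ld al c W h6 hc hc1 h0 c1)
  by_cases c2 : ∃ v, 1 ≤ v ∧ v < K ∧ ld v ∧ (2 * n2 + 4 : ℤ) ≤ wk c v
  · obtain ⟨v, v1, v2, v3, v4⟩ := c2
    refine gd_mirror W0 (good (hD K h _ _ _ W' h6 hc' hc1' h0' ⟨K - v, by omega, by omega, ?_, ?_⟩))
    · exact (ldm v v2.le).2 v3
    · rw [wkm v v2.le]
      omega
  have up : ∀ v, 1 ≤ v → v < K → ld v → wk c v ≤ 2 * n2 + 3 := by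
    intro v v1 v2 v3
    by_contra hcon
    exact c2 ⟨v, v1, v2, v3, by omega⟩
  have dn : ∀ v, 1 ≤ v → v < K → ld v → -(2 * n2 + 3 : ℤ) ≤ wk c v := by
    intro v v1 v2 v3
    by_contra hcon
    exact c1 ⟨v, v1, v2, v3, by omega⟩
  by_cases c3 : ∃ v, 1 ≤ v ∧ v < K ∧ ld v ∧ wk c v = 2 * n2 + 3
  · exact good (Or.inr (Or.inl ⟨1, h, _, 2 * h + 1, cw1 W h6 hc1,
      Or.inl (lr0 W h6 hc hc1 h0 up c3)⟩))
  by_cases c4 : ∃ v, 1 ≤ v ∧ v < K ∧ ld v ∧ wk c v = -(2 * n2 + 3 : ℤ)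
  · obtain ⟨v, v1, v2, v3, v4⟩ := c4
    refine gd_mirror W0 (good (Or.inr (Or.inl ⟨1, h, _, 2 * h + 1, cw1 W' h6 hc1',
      Or.inl (lr0 W' h6 hc' hc1' h0' ?_ ⟨K - v, by omega, by omega, ?_, ?_⟩)⟩)))
    · intro v v1 v2 v3
      rw [wkm' v v2.le]
      have := dn (K - v) (by omega) (by omega) v3
      omega
    · exact (ldm v v2.le).2 v3
    · rw [wkm v v2.le]
      omega
  have up2 : ∀ v, 1 ≤ v → v < K → ld v → wk c v ≤ 2 * n2 + 2 := by
    intro v v1 v2 v3
    have := up v v1 v2 v3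
    by_contra hcon
    exact c3 ⟨v, v1, v2, v3, by omega⟩
  have dn2 : ∀ v, 1 ≤ v → v < K → ld v → -(2 * n2 + 2 : ℤ) ≤ wk c v := by
    intro v v1 v2 v3
    have := dn v v1 v2 v3
    by_contra hcon
    exact c4 ⟨v, v1, v2, v3, by omega⟩
  by_cases hV : VX K ld al c
  · refine gd_mirror W0 (good (Or.inl ⟨h, _, 2 * h + 1, wd W' h6 hc',
      rx0 W' h6 hc' hc1' h0' ?_ fun h => VX_mirror W hV h⟩))
    intro v v1 v2 v3
    rw [wkm' v v2.le]
    have := up2 (K - v) (by omega) (by omega) v3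
    omega
  · exact good (Or.inl ⟨h, _, 2 * h + 1, wd W h6 hc, rx0 W h6 hc hc1 h0 dn2 hV⟩)

end Pool.Agent.Lob6
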