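import Pool.Agent.Lob6.Bb0B

/-!
# Last edge bad, total at most zero: the construction without a special vertex
-/

namespace Pool.Agent.Lob6

open Pool.Agent.Lob5 Pool.Agent.Lob89 Pool.Agent.Lob12 Pool.Agent.Lob34

variable {K h : ℕ} {ld al c : ℕ → Prop}

/-- a bad edge below the lower bound is impossible -/
theorem no_low' (W : WW K h ld al c) {b : ℤ} (hb : b ≤ wk c K)
    (lo : ∀ v, 1 ≤ v → v < K → ld v → b ≤ wk c v) :
    ∀ n i, i + n = K → 1 ≤ i → c i → ¬ wk c i < b := by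
  intro n
  induction n with
  | zero =>
    intro i h1 h2 h3 h4
    rw [show i = K by omega] at h4
    omega
  | succ n ih =>
    intro i h1 h2 h3 h4
    by_cases hl : ld i
    · have := lo i h2 (by omega) hl
      omega
    · have h5 := (W.same i h2 (by omega) hl).1 h3
      refine ih (i + 1) (by omega) (by omega) h5 ?_
      rw [wk_bad h5]
      omega

theorem rxbad (W : WW K h ld al c) (h6 : 6 ≤ K) (hc : c K) (h0 : wk c K ≤ 0)
    (h00 : wk c K = 0 → ¬ c 1) (hex : ∃ v, 1 ≤ v ∧ v < K ∧ ld v) {n2 : ℕ}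
    (lo : ∀ v, 1 ≤ v → v < K → ld v → wk c K - 2 * n2 - 2 ≤ wk c v) :
    RXW (wd W h6 hc).rx (2 * h + 1) n2 0 := by
  have hK := W.hK
  have e2 := end2 W h6 hc
  have tK := tot c K
  have wK := wk_oe c K
  have hP := wd_P (wd W h6 hc)
  have hQ := wd_Q (wd W h6 hc)
  have hh : (wd W h6 hc).rx.h = h := rfl
  have hbad : ∀ e, (wd W h6 hc).rx.bad e ↔ c e := fun e => Iff.rfl
  have J := fun v (h1 : 1 ≤ v) (h2 : v < K - 1) => wd_J (wd W h6 hc) h1 h2
  generalize (wd W h6 hc).rx = S at *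
  -- the first odd edge if the total is zero
  have og1 : wk c K = 0 → og c 1 = 1 ∧ og c 2 = 1 ∧ eg c 2 = 1 := by
    intro h
    have c1 := h00 h
    have h1 : ¬ ld 1 := fun h => by
      have := W.rng 1 le_rfl (by omega) h
      omega
    have c2 : ¬ c 2 := fun h => c1 ((W.same 1 le_rfl (by omega) h1).2 h)
    have a := stepG c (v := 1) le_rfl c1
    have b := stepG c (v := 2) (by omega) c2
    rw [show (1 : ℕ) - 1 = 0 by rfl] at a
    rw [show (2 : ℕ) - 1 = 1 by rfl] at b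
    have z3 : og c 0 = 0 := rfl
    have z4 : eg c 0 = 0 := rfl
    refine ⟨?_, ?_, ?_⟩ <;> omega
  have key : ∀ v, 1 ≤ v → v < K - 1 → ld v → 2 ≤ v ∧ v + 2 ≤ K ∧
      ((¬ c v ∧ c (v + 1) ∧ (S.J v : ℤ) = ob c (K - 1) + eb c (K - 1) + og c v - eb c v ∧
        (S.J v : ℤ) ≥ h - n2) ∨
      (c v ∧ ¬ c (v + 1) ∧ (S.J v : ℤ) = ob c (K - 1) + eb c (K - 1) + og c v - eb c v + 2 -
        (v % 2 : ℕ) ∧ (S.J v : ℤ) ≥ h - n2)) := by
    intro v h1 h2 hl
    obtain ⟨r1, r2, h3⟩ := vf W h1 (by omega) hl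
    obtain ⟨j1, j2⟩ := J v h1 h2
    have tv := tot c v
    have wv := wk_oe c v
    have l1 := lo v h1 (by omega) hl
    refine ⟨r1, r2, ?_⟩
    rcases h3 with ⟨c1, c2, -⟩ | ⟨c1, c2, -⟩
    · have h5 := no_low' W (b := wk c K - 2 * n2 - 2) (by omega) lo (K - (v + 1)) (v + 1)
        (by omega) (by omega) c2
      rw [wk_bad c2] at h5
      have j := j1 c1 c2
      refine Or.inl ⟨c1, c2, j, ?_⟩
      omega
    · have j := j2 c1 c2
      refine Or.inr ⟨c1, c2, j, ?_⟩
      omega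
  have low : ∀ v, 1 ≤ v → v < K - 1 → ld v → h ≤ S.J v + n2 := by
    intro v h1 h2 hl
    obtain ⟨r1, r2, ⟨_, _, h3, h4⟩ | ⟨_, _, h3, h4⟩⟩ := key v h1 h2 hl <;> omega
  have kind : ∀ v, 1 ≤ v → v < K - 1 → ld v →
      (S.bad (oe v) ↔ (v % 2 = 0 ∧ ¬ c v) ∨ (v % 2 = 1 ∧ c v)) := by
    intro v h1 h2 hl
    rw [hbad]
    exact kb_oe (W.dif v h1 (by omega) hl)
  -- the sums at two vertices
  have dd : ∀ a z, 1 ≤ a → a < K - 1 → 1 ≤ z → z < K - 1 → al a → ld z → ¬ al z →
      S.J a ≤ S.J z + S.Q + 1 := by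
    intro a z a1 a2 z1 z2 ha hz1 hz2
    have hla := W.al_ld a ha
    obtain ⟨ra1, ra2, fa⟩ := vf W a1 (by omega) hla
    obtain ⟨rz1, rz2, fz⟩ := vf W z1 (by omega) hz1
    obtain ⟨-, -, ka⟩ := key a a1 a2 hla
    obtain ⟨-, -, kz⟩ := key z z1 z2 hz1
    have m1 := mono4 c (show 2 ≤ a by omega)
    have m2 := mono4 c (show 2 ≤ z by omega)
    have m3 := mono4 c (show a + 1 ≤ K - 1 by omega)
    have m4 := mono4 c (show z + 1 ≤ K - 1 by omega)
    clear low kind key lo J
    rcases Nat.lt_or_ge z a with hza | hza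
    · have m5 := mono4 c (show z ≤ a - 1 by omega)
      have m6 := mono4 c (show z + 1 ≤ a by omega)
      rcases ka with ⟨ca, -, ja, -⟩ | ⟨ca, -, ja, -⟩
      · rcases fa with fa | fa
        · rcases kz with ⟨cz, -, jz, -⟩ | ⟨cz, -, jz, -⟩ <;> omega
        · exact absurd fa.1 ca
      · rcases fa with fa | fa
        · exact absurd ca fa.1
        · rcases Nat.mod_two_eq_zero_or_one a with pa | pa
          · rcases kz with ⟨cz, -, jz, -⟩ | ⟨cz, -, jz, -⟩ <;> omega
          · rcases kz with ⟨cz, -, jz, -⟩ | ⟨cz, -, jz, -⟩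
            · by_cases h1 : wk c K = 0
              · have := og1 h1
                omega
              · omega
            · omega
    · have hne : z ≠ a := by
        rintro rfl
        exact hz2 ha
      have m5 := mono4 c (show a ≤ z - 1 by omega)
      have m6 := mono4 c (show a + 1 ≤ z by omega)
      rcases ka with ⟨ca, -, ja, -⟩ | ⟨ca, -, ja, -⟩
      · rcases kz with ⟨cz, -, jz, -⟩ | ⟨cz, -, jz, -⟩ <;> omega
      · rcases fa with fa | fa
        · exact absurd ca fa.1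
        · rcases kz with ⟨cz, -, jz, -⟩ | ⟨cz, -, jz, -⟩ <;>
            rcases Nat.mod_two_eq_zero_or_one a with pa | pa <;> omega
  refine ⟨?_, ?_, ?_, ?_, ?_, ?_, ?_, ?_, ?_, ?_, ?_, ?_⟩
  · obtain ⟨v, v1, v2, v3⟩ := hex
    obtain ⟨r1, r2, h3⟩ := vf W v1 v2 v3
    have m1 := mono4 c (show v + 1 ≤ K by omega)
    omega
  · omega
  · intro i h1 h2 _ _
    have := rx_MC S h1 h2
    omega
  · intro a h1 h2 h3
    have := low a h1 h2 (W.al_ld a h3)
    omega
  · intro x h1 h2 h3 _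
    have := low x h1 h2 h3
    omega
  · intro z h1 h2 h3 _
    have := low z h1 h2 h3
    omega
  · intro z h1 h2 h3 _
    have m1 := mono4 c (show z ≤ K - 1 by omega)
    rcases key z h1 h2 h3 with ⟨-, -, ⟨-, -, jz, -⟩ | ⟨-, -, jz, -⟩⟩ <;> omega
  · intro a z a1 a2 z1 z2 ha _ hz hz'
    have := dd a z a1 a2 z1 z2 ha hz hz'
    omega
  · intro a x a1 a2 x1 x2 ha hka hx _
    have lx := low x x1 x2 hx
    have hla := W.al_ld a ha
    obtain ⟨ra1, ra2, fa⟩ := vf W a1 (by omega) hla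
    have ka := key a a1 a2 hla
    have ta := tot c a
    have m1 := mono4 c (show 2 ≤ a by omega)
    have m3 := mono4 c (show a + 1 ≤ K - 1 by omega)
    rw [kind a a1 a2 hla] at hka
    rcases hka with ⟨pa, ca⟩ | ⟨pa, ca⟩
    · rcases ka with ⟨-, -, ⟨-, -, ja, -⟩ | ⟨ca', -⟩⟩
      · omega
      · exact absurd ca' ca
    · rcases ka with ⟨-, -, ⟨ca', -⟩ | ⟨-, -, ja, -⟩⟩
      · exact absurd ca ca'
      · rcases fa with fa | fa
        · exact absurd ca fa.1
        · omega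
  · intro a z a1 a2 z1 z2 ha _ hz hz' _
    have := dd a z a1 a2 z1 z2 ha hz hz'
    omega
  · intro a z a1 a2 z1 z2 ha _ hz hz' _ T hT
    have h1 := dd a z a1 a2 z1 z2 ha hz hz'
    have h2 : T = ∅ := by
      rw [Finset.eq_empty_iff_forall_notMem]
      intro i hi
      obtain ⟨i1, i2, -, i3, -, i4⟩ := hT i hi
      have := low i i1 i2 i3
      omega
    rw [h2, Finset.card_empty]
    omega
  · by_contra hcon
    rw [not_or] at hcon
    obtain ⟨hc1, hc2⟩ := hcon
    push Not at hc2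
    obtain ⟨i, i1, i2, hl, hb⟩ := hc2
    obtain ⟨r1, r2, fi⟩ := vf W i1 (by omega) hl
    rw [kind i i1 i2 hl] at hb
    have m3 := mono4 c (show i + 1 ≤ K - 1 by omega)
    have m4 := mono4 c (show i ≤ K - 2 by omega)
    have m5 : i + 1 < K - 1 → ob c (i + 1) ≤ ob c (K - 2) := fun h =>
      (mono4 c (show i + 1 ≤ K - 2 by omega)).1
    rcases hb with ⟨pi, ci⟩ | ⟨pi, ci⟩
    · rcases fi with fi | fi
      · by_cases h1 : wk c K = 0
        · have h2 := og1 h1
          by_cases h3 : i + 1 < K - 1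
          · have := m5 h3
            omega
          · have m7 := mono4 c (show 2 ≤ i - 1 by omega)
            omega
        · by_cases h3 : i + 1 < K - 1
          · have := m5 h3
            omega
          · omega
      · exact absurd fi.1 ci
    · rcases fi with fi | fi
      · exact absurd ci fi.1
      · omega

end Pool.Agent.Lob6
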