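import Pool.Agent.Lob6.Bb0C
import Pool.Agent.Lob12.P1Split

/-!
# Total zero, first edge good, last edge bad: the construction with `u = 1` and the opposite colours
-/

namespace Pool.Agent.Lob6

open Pool.Agent.Lob5 Pool.Agent.Lob89 Pool.Agent.Lob12 Pool.Agent.Lob34

variable {K h : ℕ} {ld al c : ℕ → Prop}

/-- counts at the last two edges -/
theorem end2g (W : WW K h ld al c) (h6 : 6 ≤ K) (hc : ¬ c K) :
    ¬ c (K - 1) ∧ ob c (K - 1) = ob c (K - 2) ∧ eb c (K - 1) = eb c (K - 2) ∧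
      og c (K - 1) = og c (K - 2) + 1 ∧ eg c (K - 1) = eg c (K - 2) ∧
      ob c K = ob c (K - 1) ∧ eb c K = eb c (K - 1) ∧ og c K = og c (K - 1) ∧
      eg c K = eg c (K - 1) + 1 := by
  have hK := W.hK
  have h1 : ¬ ld (K - 1) := fun h => by
    have := W.rng (K - 1) (by omega) (by omega) h
    omega
  have h2 : ¬ c (K - 1) := by
    have := W.same (K - 1) (by omega) (by omega) h1
    rw [show K - 1 + 1 = K by omega] at this
    exact fun h => hc (this.1 h)
  have a := stepG c (v := K - 1) (by omega) h2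
  have b := stepG c (v := K) (by omega) hc
  rw [show K - 1 - 1 = K - 2 by omega] at a
  refine ⟨h2, ?_, ?_, ?_, ?_, ?_, ?_, ?_, ?_⟩ <;> omega

theorem lr1 (W : WW K h ld al c) (h6 : 6 ≤ K) (hc : ¬ c K) (hc1 : c 1) (h0 : wk c K = 0) {n2 : ℕ}
    (up : ∀ v, 1 ≤ v → v < K → ld v → wk c v ≤ 2 * n2 + 3)
    (ex : ∃ v, 1 ≤ v ∧ v < K ∧ ld v ∧ wk c v = 2 * n2 + 3) :
    LRW (cw1 W h6 hc1).owR.lr (2 * h + 1) n2 0 := by
  have hK := W.hK
  have e2 := end2g W h6 hc
  have s2 := start2 W h6 hc1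
  have tK := tot c K
  have wK := wk_oe c K
  have hP := PR_c (cw1 W h6 hc1)
  have hQ := QR_c (cw1 W h6 hc1)
  have s1 := stepB c (v := 1) le_rfl hc1
  rw [show (1 : ℕ) - 1 = 0 by rfl] at hP hQ s1
  have z1 : ob c 0 = 0 := rfl
  have z2 : eb c 0 = 0 := rfl
  have z3 : og c 0 = 0 := rfl
  have z4 : eg c 0 = 0 := rfl
  rw [z1, z2, z3, z4] at s1
  rw [z1] at hP
  rw [z2] at hQ
  have hV : (cw1 W h6 hc1).owR.lr.V n2 := by
    refine (cw1 W h6 hc1).VR1 ?_ ?_
    · rw [rc_gt (by omega)]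
      exact fun h => h s2.1
    · have r1 := (rc_cnt1 c (le_refl 1)).2.2.2
      have r2 := (rc_cnt2 c (show 1 ≤ K - 1 by omega)).2.2.2
      obtain ⟨v, v1, v2, v3, v4⟩ := ex
      obtain ⟨v5, v6, hv⟩ := vf W v1 v2 v3
      have tv := tot c v
      have wv := wk_oe c v
      have m1 := mono4 c v5
      have m2 := mono4 c (show v ≤ K - 2 by omega)
      omega
  have hh : (cw1 W h6 hc1).owR.lr.h = h := rfl
  have J := fun v (h1 : 1 < v) (h2 : v < K) => JR1k (cw1 W h6 hc1) h1 h2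
  have kb := fun v (h1 : 1 < v) (h2 : v < K) (hl : ld v) =>
    kb_iff (cw1 W h6 hc1) (by omega : 1 ≤ v) (by omega) (W.dif v (by omega) h2 hl)
  have hMC := LR.MC_max (cw1 W h6 hc1).owR.lr
  have hbad : ∀ e, (cw1 W h6 hc1).owR.lr.bad e ↔ rc c 1 e := fun e => Iff.rfl
  generalize (cw1 W h6 hc1).owR.lr = S at *
  have key : ∀ v, 1 ≤ v → v < K → ld v → 2 ≤ v ∧ v + 2 ≤ K ∧
      ((¬ c v ∧ c (v + 1) ∧ (S.J v : ℤ) = h + 2 - (og c v - eb c v) + (v % 2 : ℕ)) ∨
      (c v ∧ ¬ c (v + 1) ∧ (S.J v : ℤ) = h + 1 - (og c v - eb c v))) ∧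
      og c v ≤ eb c v + n2 + 2 := by
    intro v h1 h2 hl
    obtain ⟨r1, r2, h3⟩ := vf W h1 h2 hl
    obtain ⟨j1, j2, j3, j4⟩ := J v r1 h2
    have tv := tot c v
    have wv := wk_oe c v
    have l1 := up v h1 h2 hl
    refine ⟨r1, r2, ?_, ?_⟩
    · rcases h3 with ⟨c1, c2, -⟩ | ⟨c1, c2, -⟩
      · refine Or.inl ⟨c1, c2, ?_⟩
        rcases Nat.mod_two_eq_zero_or_one v with pv | pv
        · have := j1 c1 c2 pv
          omega
        · have := j3 c1 c2 pv
          omega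
      · refine Or.inr ⟨c1, c2, ?_⟩
        rcases Nat.mod_two_eq_zero_or_one v with pv | pv
        · have := j4 c1 c2 pv
          omega
        · have := j2 c1 c2 pv
          omega
    · rcases Nat.mod_two_eq_zero_or_one v with pv | pv <;> omega
  clear J
  have low : ∀ v, 1 ≤ v → v < K → ld v → h ≤ S.J v + n2 + 1 := by
    intro v h1 h2 hl
    obtain ⟨r1, r2, ⟨_, _, h3⟩ | ⟨_, _, h3⟩, h4⟩ := key v h1 h2 hl
    · rcases Nat.mod_two_eq_zero_or_one v with pv | pv <;> omega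
    · rcases Nat.mod_two_eq_zero_or_one v with pv | pv <;> omega
  -- the sums at two vertices
  have dd : ∀ a z, 1 ≤ a → a < K → 1 ≤ z → z < K → al a → ld z → ¬ al z →
      S.J a ≤ S.J z + S.Q + 1 ∧
      (¬ ((a % 2 = 0 ∧ ¬ c a) ∨ (a % 2 = 1 ∧ c a)) → S.J a ≤ S.J z + S.Q) ∧
      ((a % 2 = 0 ∧ ¬ c a) ∨ (a % 2 = 1 ∧ c a) → S.J a ≤ S.J z + S.P) := by
    intro a z a1 a2 z1 z2 ha hz1 hz2
    have hla := W.al_ld a ha
    obtain ⟨ra1, ra2, fa⟩ := vf W a1 (by omega) hla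
    obtain ⟨rz1, rz2, fz⟩ := vf W z1 (by omega) hz1
    obtain ⟨-, -, ka, -⟩ := key a a1 a2 hla
    obtain ⟨-, -, kz, -⟩ := key z z1 z2 hz1
    have ta := tot c a
    have tz := tot c z
    have m1 := mono4 c (show 2 ≤ a by omega)
    have m2 := mono4 c (show 2 ≤ z by omega)
    have m3 := mono4 c (show a + 1 ≤ K - 1 by omega)
    have m4 := mono4 c (show z + 1 ≤ K - 1 by omega)
    have m7 := mono4 c (show a ≤ K - 2 by omega)
    have m8 := mono4 c (show z ≤ K - 2 by omega)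
    clear hV hMC hbad kb key low ex up
    rcases Nat.lt_or_ge z a with hza | hza
    · have m5 := mono4 c (show z ≤ a - 1 by omega)
      have m6 := mono4 c (show z + 1 ≤ a by omega)
      rcases ka with ⟨ca, ca', ja⟩ | ⟨ca, ca', ja⟩
      · rcases fa with fa | fa
        swap
        · exact absurd fa.1 ca
        rcases Nat.mod_two_eq_zero_or_one a with pa | pa
        · refine ⟨?_, fun hk => absurd (Or.inl ⟨pa, ca⟩) hk, fun _ => ?_⟩ <;>
          · rcases kz with ⟨-, -, jz⟩ | ⟨-, -, jz⟩ <;> omega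
        · refine ⟨?_, fun _ => ?_, fun hk => ?_⟩
          · rcases kz with ⟨-, -, jz⟩ | ⟨-, -, jz⟩ <;> omega
          · rcases kz with ⟨-, -, jz⟩ | ⟨-, -, jz⟩ <;> omega
          · rcases hk with hk | hk
            · omega
            · exact absurd hk.2 ca
      · rcases fa with fa | fa
        · exact absurd ca fa.1
        rcases Nat.mod_two_eq_zero_or_one a with pa | pa
        · refine ⟨?_, fun _ => ?_, fun hk => ?_⟩
          · rcases kz with ⟨-, -, jz⟩ | ⟨-, -, jz⟩ <;> omega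
          · rcases kz with ⟨-, -, jz⟩ | ⟨-, -, jz⟩ <;> omega
          · rcases hk with hk | hk
            · exact absurd ca hk.2
            · omega
        · refine ⟨?_, fun hk => absurd (Or.inr ⟨pa, ca⟩) hk, fun _ => ?_⟩ <;>
          · rcases kz with ⟨-, -, jz⟩ | ⟨-, -, jz⟩ <;> omega
    · have hne : z ≠ a := by
        rintro rfl
        exact hz2 ha
      have m5 := mono4 c (show a ≤ z - 1 by omega)
      have m6 := mono4 c (show a + 1 ≤ z by omega)
      rcases ka with ⟨ca, ca', ja⟩ | ⟨ca, ca', ja⟩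
      · rcases fa with fa | fa
        swap
        · exact absurd fa.1 ca
        rcases Nat.mod_two_eq_zero_or_one a with pa | pa
        · refine ⟨?_, fun hk => absurd (Or.inl ⟨pa, ca⟩) hk, fun _ => ?_⟩ <;>
          · rcases kz with ⟨-, -, jz⟩ | ⟨-, -, jz⟩ <;> omega
        · refine ⟨?_, fun _ => ?_, fun hk => ?_⟩
          · rcases kz with ⟨-, -, jz⟩ | ⟨-, -, jz⟩ <;> omega
          · rcases kz with ⟨-, -, jz⟩ | ⟨-, -, jz⟩ <;> omega
          · rcases hk with hk | hk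
            · omega
            · exact absurd hk.2 ca
      · rcases fa with fa | fa
        · exact absurd ca fa.1
        rcases Nat.mod_two_eq_zero_or_one a with pa | pa
        · refine ⟨?_, fun _ => ?_, fun hk => ?_⟩
          · rcases kz with ⟨-, -, jz⟩ | ⟨-, -, jz⟩ <;> omega
          · rcases kz with ⟨-, -, jz⟩ | ⟨-, -, jz⟩ <;> omega
          · rcases hk with hk | hk
            · exact absurd ca hk.2
            · omega
        · refine ⟨?_, fun hk => absurd (Or.inr ⟨pa, ca⟩) hk, fun _ => ?_⟩ <;>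
          · rcases kz with ⟨-, -, jz⟩ | ⟨-, -, jz⟩ <;> omega
  refine ⟨?_, ?_, ?_, ?_, ?_, ?_, ?_, ?_, ?_, ?_, ?_, ?_, ?_, ?_, ?_⟩
  · omega
  · omega
  · intro i h1 h2 h3 h4 h5
    have := hMC i h1 h2 h3 h4 h5
    omega
  · intro i h1 h2
    omega
  · exact hV
  · intro a h1 h2 h3
    have := low a h1 h2 (W.al_ld a h3)
    omega
  · intro x h1 h2 h3 _
    have := low x h1 h2 h3
    omega
  · intro z h1 h2 h3 _
    have := low z h1 h2 h3
    omega
  · intro z h1 h2 h3 _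
    have m1 := mono4 c (show z ≤ K by omega)
    rcases key z h1 h2 h3 with ⟨-, -, ⟨-, -, jz⟩ | ⟨-, -, jz⟩, -⟩ <;> omega
  · intro a z a1 a2 z1 z2 ha hb hz hz'
    have h1 := dd a z a1 a2 z1 z2 ha hz hz'
    have hla := W.al_ld a ha
    have h2 := (kb a (vf W a1 a2 hla).1 a2 hla).1 ((hbad _).1 hb)
    exact ⟨Or.inl h1.1, fun _ => h1.2.2 h2⟩
  · intro a x a1 a2 x1 x2 ha hb hx hx'
    have h1 := dd a x a1 a2 x1 x2 ha hx hx'
    have hla := W.al_ld a ha
    have h2 := (kb a (vf W a1 a2 hla).1 a2 hla).1 ((hbad _).1 hb)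
    have := h1.2.2 h2
    omega
  · intro a z a1 a2 z1 z2 ha hb hz hz' _
    have h1 := dd a z a1 a2 z1 z2 ha hz hz'
    have hla := W.al_ld a ha
    have h2 := h1.2.1 fun h => hb ((hbad _).2 ((kb a (vf W a1 a2 hla).1 a2 hla).2 h))
    omega
  · intro a z a1 a2 z1 z2 ha hb hz hz' _ T hT
    have h1 := dd a z a1 a2 z1 z2 ha hz hz'
    have hla := W.al_ld a ha
    have h2 := h1.2.1 fun h => hb ((hbad _).2 ((kb a (vf W a1 a2 hla).1 a2 hla).2 h))
    have h3 : T = ∅ := by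
      rw [Finset.eq_empty_iff_forall_notMem]
      intro i hi
      obtain ⟨i1, i2, -, i3, -, i4⟩ := hT i hi
      have := low i i1 i2 i3
      omega
    rw [h3, Finset.card_empty]
    omega
  · rcases Nat.lt_or_ge S.Q S.P with hlt | hge
    · right
      intro a x a1 a2 x1 x2 ha hb hx hx'
      have h1 := dd a x a1 a2 x1 x2 ha hx hx'
      have hla := W.al_ld a ha
      have h2 := h1.2.1 fun h => hb ((hbad _).2 ((kb a (vf W a1 a2 hla).1 a2 hla).2 h))
      omega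
    · exact Or.inl hge
  · by_contra hcon
    rw [not_or] at hcon
    obtain ⟨hp, hq⟩ := hcon
    push Not at hq
    obtain ⟨i, i1, i2, hl, hb⟩ := hq
    obtain ⟨r1, r2, fi⟩ := vf W i1 i2 hl
    have hb' := (kb i r1 i2 hl).1 ((hbad _).1 hb)
    have m1 := mono4 c (show 2 ≤ i by omega)
    have m2 := mono4 c (show i ≤ K - 2 by omega)
    rcases hb' with ⟨pi, ci⟩ | ⟨pi, ci⟩
    · rcases fi with fi | fi
      · have m3 := mono4 c (show i + 1 ≤ K - 1 by omega)
        omega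
      · exact absurd fi.1 ci
    · rcases fi with fi | fi
      · exact absurd ci fi.1
      · have m3 := mono4 c (show 2 ≤ i - 1 by omega)
        omega

/-- **The case `(Z)`.** -/
theorem zbad (W : WW K h ld al c) (h6 : 6 ≤ K) (hc : c K) (hc1 : ¬ c 1) (h0 : wk c K = 0) {n2 : ℕ}
    (lo : ∀ v, 1 ≤ v → v < K → ld v → -(2 * n2 + 3 : ℤ) ≤ wk c v)
    (ex : ∃ v, 1 ≤ v ∧ v < K ∧ ld v ∧ wk c v = -(2 * n2 + 3 : ℤ)) :
    LRW (cw1 W.neg h6 hc1).owR.lr (2 * h + 1) n2 0 := by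
  refine lr1 W.neg h6 (fun h => h hc) hc1 ?_ ?_ ?_
  · rw [wk_neg, h0, neg_zero]
  · intro v h1 h2 h3
    have := lo v h1 h2 h3
    rw [wk_neg]
    omega
  · obtain ⟨v, h1, h2, h3, h4⟩ := ex
    refine ⟨v, h1, h2, h3, ?_⟩
    rw [wk_neg]
    omega

end Pool.Agent.Lob6
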