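import Pool.Agent.Lob34.CvA
import Pool.Agent.Lob12.P1Asm

/-!
# Words with total zero and both ends bad: the construction without a special vertex

Counts at the loaded vertices, the sums of the ranks of `WD.rx` as counts, and the conditions `RXW` if all the sums are
at least `h - n2` and there is no bad pair `VX`.
-/

namespace Pool.Agent.Lob6

open Pool.Agent.Lob5 Pool.Agent.Lob89 Pool.Agent.Lob12 Pool.Agent.Lob34

variable {K h : ℕ} {ld al c : ℕ → Prop}

/-- counts next to a loaded vertex -/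
theorem vf (W : WW K h ld al c) {v : ℕ} (h1 : 1 ≤ v) (h2 : v < K) (hl : ld v) :
    2 ≤ v ∧ v + 2 ≤ K ∧
    ((¬ c v ∧ c (v + 1) ∧
      ob c v = ob c (v - 1) ∧ eb c v = eb c (v - 1) ∧ og c v = og c (v - 1) + v % 2 ∧
      eg c v + v % 2 = eg c (v - 1) + 1 ∧
      ob c (v + 1) = ob c v + (v + 1) % 2 ∧ eb c (v + 1) + (v + 1) % 2 = eb c v + 1 ∧
      og c (v + 1) = og c v ∧ eg c (v + 1) = eg c v) ∨
     (c v ∧ ¬ c (v + 1) ∧
      ob c v = ob c (v - 1) + v % 2 ∧ eb c v + v % 2 = eb c (v - 1) + 1 ∧ og c v = og c (v - 1) ∧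
      eg c v = eg c (v - 1) ∧
      ob c (v + 1) = ob c v ∧ eb c (v + 1) = eb c v ∧ og c (v + 1) = og c v + (v + 1) % 2 ∧
      eg c (v + 1) + (v + 1) % 2 = eg c v + 1)) := by
  obtain ⟨r1, r2⟩ := W.rng v h1 h2 hl
  have hd := W.dif v h1 h2 hl
  refine ⟨r1, r2, ?_⟩
  by_cases hc : c v
  · have hc' := hd.1 hc
    have a := stepB c h1 hc
    have b := stepG c (v := v + 1) (by omega) hc'
    rw [Nat.add_sub_cancel] at b
    exact Or.inr ⟨hc, hc', a.1, a.2.1, a.2.2.1, a.2.2.2, b.1, b.2.1, b.2.2.1, b.2.2.2⟩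
  · have hc' : c (v + 1) := by
      by_contra h
      exact hc (hd.2 h)
    have a := stepG c h1 hc
    have b := stepB c (v := v + 1) (by omega) hc'
    rw [Nat.add_sub_cancel] at b
    exact Or.inl ⟨hc, hc', a.1, a.2.1, a.2.2.1, a.2.2.2, b.1, b.2.1, b.2.2.1, b.2.2.2⟩

/-- counts at the first two edges -/
theorem start2 (W : WW K h ld al c) (h6 : 6 ≤ K) (hc : c 1) :
    c 2 ∧ ob c 2 = 1 ∧ eb c 2 = 1 ∧ og c 2 = 0 ∧ eg c 2 = 0 := by
  have h1 : ¬ ld 1 := fun h => by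
    have := W.rng 1 le_rfl (by omega) h
    omega
  have h2 : c 2 := (W.same 1 le_rfl (by omega) h1).1 hc
  have a := stepB c (v := 1) le_rfl hc
  have b := stepB c (v := 2) (by omega) h2
  rw [show (1 : ℕ) - 1 = 0 by rfl] at a
  rw [show (2 : ℕ) - 1 = 1 by rfl] at b
  have z1 : ob c 0 = 0 := rfl
  have z2 : eb c 0 = 0 := rfl
  have z3 : og c 0 = 0 := rfl
  have z4 : eg c 0 = 0 := rfl
  refine ⟨h2, ?_, ?_, ?_, ?_⟩ <;> omega

/-- counts at the last two edges -/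
theorem end2 (W : WW K h ld al c) (h6 : 6 ≤ K) (hc : c K) :
    c (K - 1) ∧ ob c (K - 1) = ob c (K - 2) + 1 ∧ eb c (K - 1) = eb c (K - 2) ∧
      og c (K - 1) = og c (K - 2) ∧ eg c (K - 1) = eg c (K - 2) ∧
      ob c K = ob c (K - 1) ∧ eb c K = eb c (K - 1) + 1 ∧ og c K = og c (K - 1) ∧
      eg c K = eg c (K - 1) := by
  have hK := W.hK
  have h1 : ¬ ld (K - 1) := fun h => by
    have := W.rng (K - 1) (by omega) (by omega) h
    omega
  have h2 : c (K - 1) := by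
    have := W.same (K - 1) (by omega) (by omega) h1
    rw [show K - 1 + 1 = K by omega] at this
    exact this.2 hc
  have a := stepB c (v := K - 1) (by omega) h2
  have b := stepB c (v := K) (by omega) hc
  rw [show K - 1 - 1 = K - 2 by omega] at a
  refine ⟨h2, ?_, ?_, ?_, ?_, ?_, ?_, ?_, ?_⟩ <;> omega

/-- the hypotheses of `WD` -/
theorem wd (W : WW K h ld al c) (h6 : 6 ≤ K) (hc : c K) :
    WD (K - 1) h ld al c := by
  have hK := W.hK
  refine ⟨by omega, by omega, W.al_ld, ?_, ?_, ?_, (end2 W h6 hc).1⟩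
  · intro i h1 h2 h3
    exact W.same i h1 (by omega) h3
  · intro i h1 h2 h3 h4
    exact (W.dif i h1 (by omega) h3).1 h4
  · intro i h1 h2 h3 h4
    by_contra h5
    exact h4 ((W.dif i h1 (by omega) (W.al_ld i h3)).2 h5)

section

variable (X : WD (K - 1) h ld al c)

theorem wd_P : X.rx.P = ob c (K - 1) := bo_cn c (K - 1)

theorem wd_Q : X.rx.Q = eb c (K - 1) := bv_cn c (K - 1)

/-- the sums of the ranks as counts -/
theorem wd_J {v : ℕ} (h1 : 1 ≤ v) (h2 : v < K - 1) :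
    (¬ c v → c (v + 1) → (X.rx.J v : ℤ) = ob c (K - 1) + eb c (K - 1) + og c v - eb c v) ∧
    (c v → ¬ c (v + 1) → (X.rx.J v : ℤ) =
      ob c (K - 1) + eb c (K - 1) + og c v - eb c v + 2 - (v % 2 : ℕ)) := by
  obtain ⟨-, -, j3, j4⟩ := X.J_lam h1 h2
  have p := wd_P X
  have q := wd_Q X
  have t := tot c v
  have w := wk_oe c v
  refine ⟨fun c1 c2 => ?_, fun c1 c2 => ?_⟩
  · have := j3 c1 c2
    omega
  · have := j4 c1 c2
    omega

/-- the kind of a loaded vertex -/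
theorem kb_oe {v : ℕ} (hd : c v ↔ ¬ c (v + 1)) :
    c (oe v) ↔ (v % 2 = 0 ∧ ¬ c v) ∨ (v % 2 = 1 ∧ c v) := by
  unfold oe
  split_ifs with h4
  · constructor
    · exact fun h5 => Or.inr ⟨h4, h5⟩
    · rintro (h5 | h5)
      · omega
      · exact h5.2
  · constructor
    · exact fun h5 => Or.inl ⟨by omega, fun h6 => hd.1 h6 h5⟩
    · rintro (h5 | h5)
      · by_contra h6
        exact h5.2 (hd.2 h6)
      · omega

end

/-- the pairs which violate a condition -/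
def VX (K : ℕ) (ld al c : ℕ → Prop) : Prop :=
  ∃ z a, 1 ≤ z ∧ z < a ∧ a < K ∧ ld z ∧ ¬ al z ∧ al a ∧ z % 2 = 0 ∧ ¬ c z ∧ a % 2 = 1 ∧ c a ∧
    og c a = og c z + og c K ∧ eb c a = eb c z

end Pool.Agent.Lob6
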