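import Pool.Agent.Lob6.Bb0A

/-!
# Words with total zero and both ends bad: the conditions `RXW`
-/

namespace Pool.Agent.Lob6

open Pool.Agent.Lob5 Pool.Agent.Lob89 Pool.Agent.Lob12 Pool.Agent.Lob34

variable {K h : ℕ} {ld al c : ℕ → Prop}

/-- `M = 2h + 1` is always possible -/
theorem rx_MC {k : ℕ} {ld al : ℕ → Prop} (S : RX k ld al) {i : ℕ} (h1 : 1 ≤ i) (h2 : i < k) :
    S.J i ≤ 2 * S.h + 1 := by
  have hk := S.hk
  have ho : ∀ e, 1 ≤ e → e ≤ k → e % 2 = 1 → S.rk e ≤ S.h + 1 := by
    intro e e1 e2 e3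
    by_cases hb : S.bad e
    · have := (S.rk_ob e e1 e2 e3 hb).2
      have := S.Ph
      omega
    · exact (S.rk_og e e1 e2 e3 hb).2
  have he : ∀ e, 1 ≤ e → e ≤ k → e % 2 = 0 → S.rk e ≤ S.h := by
    intro e e1 e2 e3
    by_cases hb : S.bad e
    · have := (S.rk_eb e e1 e2 e3 hb).2
      have := S.Qh
      omega
    · exact (S.rk_eg e e1 e2 e3 hb).2
  unfold RX.J
  rcases Nat.mod_two_eq_zero_or_one i with h3 | h3
  · have := he i h1 (by omega) h3
    have := ho (i + 1) (by omega) (by omega) (by omega)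
    omega
  · have := ho i h1 (by omega) h3
    have := he (i + 1) (by omega) (by omega) (by omega)
    omega

/-- a bad edge below the lower bound is impossible -/
theorem no_low (W : WW K h ld al c) (h0 : wk c K = 0) {b : ℤ} (hb : b ≤ 0)
    (lo : ∀ v, 1 ≤ v → v < K → ld v → b ≤ wk c v) :
    ∀ n i, i + n = K → 1 ≤ i → c i → ¬ wk c i < b := by
  intro n
  induction n with
  | zero =>
    intro i h1 h2 h3 h4
    rw [show i = K by omega] at h4
    omega
  | succ n ih =>
    intro i h1 h2 h3 h4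
    by_cases hl : ld i
    · have := lo i h2 (by omega) hl
      omega
    · have h5 := (W.same i h2 (by omega) hl).1 h3
      refine ih (i + 1) (by omega) (by omega) h5 ?_
      rw [wk_bad h5]
      omega

theorem rx0 (W : WW K h ld al c) (h6 : 6 ≤ K) (hc : c K) (hc1 : c 1) (h0 : wk c K = 0) {n2 : ℕ}
    (lo : ∀ v, 1 ≤ v → v < K → ld v → -(2 * n2 + 2 : ℤ) ≤ wk c v)
    (nV : ¬ VX K ld al c) : RXW (wd W h6 hc).rx (2 * h + 1) n2 0 := by
  have hK := W.hK
  have e2 := end2 W h6 hc
  have s2 := start2 W h6 hc1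
  have tK := tot c K
  have wK := wk_oe c K
  have hP := wd_P (wd W h6 hc)
  have hQ := wd_Q (wd W h6 hc)
  have hh : (wd W h6 hc).rx.h = h := rfl
  have hbad : ∀ e, (wd W h6 hc).rx.bad e ↔ c e := fun e => Iff.rfl
  have J := fun v (h1 : 1 ≤ v) (h2 : v < K - 1) => wd_J (wd W h6 hc) h1 h2
  generalize (wd W h6 hc).rx = S at *
  have key : ∀ v, 1 ≤ v → v < K - 1 → ld v → 2 ≤ v ∧ v + 2 ≤ K ∧
      ((¬ c v ∧ c (v + 1) ∧ (S.J v : ℤ) = ob c (K - 1) + eb c (K - 1) + og c v - eb c v ∧
        -(n2 : ℤ) ≤ og c v - eb c v) ∨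
      (c v ∧ ¬ c (v + 1) ∧ (S.J v : ℤ) = ob c (K - 1) + eb c (K - 1) + og c v - eb c v + 2 -
        (v % 2 : ℕ) ∧ -(n2 : ℤ) ≤ og c v - eb c v + 2 - (v % 2 : ℕ))) := by
    intro v h1 h2 hl
    obtain ⟨r1, r2, h3⟩ := vf W h1 (by omega) hl
    obtain ⟨j1, j2⟩ := J v h1 h2
    have tv := tot c v
    have wv := wk_oe c v
    have l1 := lo v h1 (by omega) hl
    refine ⟨r1, r2, ?_⟩
    rcases h3 with ⟨c1, c2, -⟩ | ⟨c1, c2, -⟩
    · refine Or.inl ⟨c1, c2, j1 c1 c2, ?_⟩
      have h5 := no_low W h0 (b := -(2 * n2 + 2 : ℤ)) (by omega) lo (K - (v + 1)) (v + 1)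
        (by omega) (by omega) c2
      rw [wk_bad c2] at h5
      omega
    · refine Or.inr ⟨c1, c2, j2 c1 c2, ?_⟩
      omega
  have low : ∀ v, 1 ≤ v → v < K - 1 → ld v → h ≤ S.J v + n2 := by
    intro v h1 h2 hl
    obtain ⟨r1, r2, ⟨_, _, h3, h4⟩ | ⟨_, _, h3, h4⟩⟩ := key v h1 h2 hl <;> omega
  have kind : ∀ v, 1 ≤ v → v < K - 1 → ld v →
      (S.bad (oe v) ↔ (v % 2 = 0 ∧ ¬ c v) ∨ (v % 2 = 1 ∧ c v)) := by
    intro v h1 h2 hl
    rw [hbad]
    exact kb_oe (W.dif v h1 (by omega) hl)
  -- the sums at two vertices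
  have gK : og c K = eb c (K - 1) + 1 := by
    clear * - e2 tK wK h0 hK
    omega
  have dd : ∀ a z, 1 ≤ a → a < K - 1 → 1 ≤ z → z < K - 1 → al a → ld z → ¬ al z →
      S.J a ≤ S.J z + S.Q + 1 := by
    intro a z a1 a2 z1 z2 ha hz1 hz2
    have hla := W.al_ld a ha
    obtain ⟨ra1, ra2, fa⟩ := vf W a1 (by omega) hla
    obtain ⟨rz1, rz2, fz⟩ := vf W z1 (by omega) hz1
    obtain ⟨-, -, ka⟩ := key a a1 a2 hla
    obtain ⟨-, -, kz⟩ := key z z1 z2 hz1
    -- the lower bound for the second sum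
    have jz : (ob c (K - 1) + eb c (K - 1) + og c z - eb c z : ℤ) ≤ S.J z := by
      rcases kz with ⟨-, -, j, -⟩ | ⟨-, -, j, -⟩
      · exact j.ge
      · clear * - j
        omega
    have mK : og c (a + 1) ≤ og c K := (mono4 c (show a + 1 ≤ K by omega)).2.2.1
    have ma : og c a ≤ og c (a + 1) := (mono4 c (show a ≤ a + 1 by omega)).2.2.1
    rcases Nat.lt_or_ge z a with hza | hza
    · have m5 : eb c z ≤ eb c (a - 1) := (mono4 c (show z ≤ a - 1 by omega)).2.1
      have m6 : eb c (a - 1) ≤ eb c a := (mono4 c (show a - 1 ≤ a by omega)).2.1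
      rcases ka with ⟨ca, -, ja, -⟩ | ⟨ca, -, ja, -⟩
      · clear * - ja jz gK mK ma m5 m6 hQ
        omega
      · rcases fa with fa | fa
        · exact absurd ca fa.1
        · obtain ⟨-, -, -, f2, -, -, -, -, f3, -⟩ := fa
          rcases Nat.mod_two_eq_zero_or_one a with pa | pa
          · have pa' : (a + 1) % 2 = 1 := by clear * - pa; omega
            rw [pa] at f2 ja
            rw [pa'] at f3
            clear * - ja jz gK mK f2 f3 m5 hQ
            omega
          · rw [pa] at ja f2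
            by_contra hcon
            rcases kz with ⟨cz, -, jz', -⟩ | ⟨cz, -, jz', -⟩
            · rcases fz with fz | fz
              · obtain ⟨-, -, -, z4, -, -, z5, z6, -, -⟩ := fz
                have m7 := (mono4 c (show z + 1 ≤ a by omega)).2.1
                rcases Nat.mod_two_eq_zero_or_one z with pz | pz
                · refine nV ⟨z, a, z1, hza, by omega, hz1, hz2, ha, pz, cz, pa, ca, ?_, ?_⟩
                  · clear * - ja jz' gK mK ma m5 m6 hQ hcon
                    omega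
                  · clear * - ja jz' gK mK ma m5 m6 hQ hcon
                    omega
                · have pz' : (z + 1) % 2 = 0 := by clear * - pz; omega
                  rw [pz'] at z6
                  clear * - ja jz' gK mK ma m7 z6 hQ hcon
                  omega
              · exact cz fz.1
            · have hz' : z % 2 ≤ 1 := by clear * -; omega
              clear * - ja jz' gK mK ma m5 m6 hQ hcon hz'
              omega
    · have hne : z ≠ a := by
        rintro rfl
        exact hz2 ha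
      have m5 : og c (a + 1) ≤ og c z := (mono4 c (show a + 1 ≤ z by omega)).2.2.1
      have m6 : eb c z ≤ eb c (K - 1) := (mono4 c (show z ≤ K - 1 by omega)).2.1
      rcases ka with ⟨-, -, ja, -⟩ | ⟨ca, -, ja, -⟩
      · clear * - ja jz m5 m6 ma hQ
        omega
      · rcases fa with fa | fa
        · exact absurd ca fa.1
        · obtain ⟨-, -, -, -, -, -, -, -, f3, -⟩ := fa
          rcases Nat.mod_two_eq_zero_or_one a with pa | pa
          · have pa' : (a + 1) % 2 = 1 := by clear * - pa; omega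
            rw [pa] at ja
            rw [pa'] at f3
            clear * - ja jz m5 m6 f3 hQ
            omega
          · rw [pa] at ja
            clear * - ja jz m5 m6 ma hQ
            omega
  refine ⟨?_, ?_, ?_, ?_, ?_, ?_, ?_, ?_, ?_, ?_, ?_, ?_⟩
  · omega
  · omega
  · intro i h1 h2 _ _
    have := rx_MC S h1 h2
    omega
  · intro a h1 h2 h3
    have := low a h1 h2 (W.al_ld a h3)
    omega
  · intro x h1 h2 h3 _
    have := low x h1 h2 h3
    omega
  · intro z h1 h2 h3 _
    have := low z h1 h2 h3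
    omega
  · intro z h1 h2 h3 _
    have m1 := mono4 c (show z ≤ K - 1 by omega)
    rcases key z h1 h2 h3 with ⟨-, -, ⟨-, -, jz, -⟩ | ⟨-, -, jz, -⟩⟩ <;> omega
  · intro a z a1 a2 z1 z2 ha _ hz hz'
    have := dd a z a1 a2 z1 z2 ha hz hz'
    omega
  · intro a x a1 a2 x1 x2 ha hka hx _
    have lx := low x x1 x2 hx
    have hla := W.al_ld a ha
    obtain ⟨ra1, ra2, fa⟩ := vf W a1 (by omega) hla
    have ka := key a a1 a2 hla
    have ta := tot c a
    have m1 := mono4 c (show 2 ≤ a by omega)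
    have m3 := mono4 c (show a + 1 ≤ K - 1 by omega)
    have m2 := mono4 c (show 2 ≤ a - 1 by
      rw [kind a a1 a2 hla] at hka
      by_contra h
      have : a = 2 := by omega
      subst this
      rcases hka with h | h
      · exact h.2 s2.1
      · omega)
    rw [kind a a1 a2 hla] at hka
    rcases hka with ⟨pa, ca⟩ | ⟨pa, ca⟩
    · rcases ka with ⟨-, -, ⟨-, -, ja, -⟩ | ⟨ca', -⟩⟩
      · omega
      · exact absurd ca' ca
    · rcases ka with ⟨-, -, ⟨ca', -⟩ | ⟨-, -, ja, -⟩⟩
      · exact absurd ca ca'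
      · rcases fa with fa | fa
        · exact absurd ca fa.1
        · omega
  · intro a z a1 a2 z1 z2 ha _ hz hz' _
    have := dd a z a1 a2 z1 z2 ha hz hz'
    omega
  · intro a z a1 a2 z1 z2 ha _ hz hz' _ T hT
    have h1 := dd a z a1 a2 z1 z2 ha hz hz'
    have h2 : T = ∅ := by
      rw [Finset.eq_empty_iff_forall_notMem]
      intro i hi
      obtain ⟨i1, i2, -, i3, -, i4⟩ := hT i hi
      have := low i i1 i2 i3
      omega
    rw [h2, Finset.card_empty]
    omega
  · left
    have m := mono4 c (show 2 ≤ K - 2 by omega)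
    omega

end Pool.Agent.Lob6
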