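import Pool.Agent.Lob89.GgWord
import Pool.Agent.Lob6.Bb0B

/-!
# Both ends good, no unmarked loaded vertex at an even position: the construction `R0`
-/

namespace Pool.Agent.Lob6

open Pool.Agent.Lob12 Pool.Agent.Lob5 Pool.Agent.Lob89 Pool.Agent.Lob89.Gg

variable {m : ℕ} {ld al x : ℕ → Prop} {s : ℤ}

theorem gw_wd (W : GW m ld al x s) : WD (2 * m - 1) (m - 1) ld al x := by
  have h2 := W.m2
  refine ⟨by omega, by omega, W.ald, ?_, ?_, ?_, W.xK1⟩
  · intro i h1 h2 h3
    exact W.same i h1 (by omega) h3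
  · intro i h1 h2 h3 h4
    exact (W.dif i h1 (by omega) h3).1 h4
  · intro i h1 h2 h3 h4
    by_contra h5
    exact h4 ((W.dif i h1 (by omega) (W.ald i h3)).2 h5)

theorem r0x_odd (W : GW m ld al x s) (hN : ∀ i, 1 ≤ i → i < m → ld (2 * i) → al (2 * i))
    {n2 dl : ℕ} (hdl : n2 ≤ dl + nP x m + nR x m) (hpr : nP x m ≤ nR x m)
    (hT : nG x m + nR x m ≤ n2 + 1 ∨ (nG x m + nR x m = n2 + 2 ∧ ∃ t, 1 ≤ t ∧ t ≤ m ∧
      Y x t = s ∧ Y x (t - 1) = s - 1 ∧ nB x m = nB x t + 1 ∧ nR x m = nR x t ∧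
      ∀ i, t ≤ i → i ≤ m → s ≤ Y x i)) :
    ∃ C : WD (2 * m - 1) (m - 1) ld al x, RXW C.rx (2 * m - 1) n2 dl := by
  refine ⟨gw_wd W, ?_⟩
  have h2 := W.m2
  have hs := W.s1
  have htot := W.tot
  have hf := W.first
  have hl := W.last
  have pc := pcnt x m
  have pc' := pcnt x (m - 1)
  have st := step x (t := 2 * m) (by omega)
  have hP : (gw_wd W).rx.P = nB x m + nP x m := by
    have h3 : (gw_wd W).rx.P = Gg.bo x (2 * m - 1) := bo_cn x (2 * m - 1)
    have := st.2.2.1 (by omega) W.xK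
    omega
  have hQ : (gw_wd W).rx.Q + 1 = nB x m + nR x m := by
    have h3 : (gw_wd W).rx.Q = Gg.bv x (2 * m - 1) := bv_cn x (2 * m - 1)
    have := st.2.2.1 (by omega) W.xK
    omega
  have hh : (gw_wd W).rx.h = m - 1 := rfl
  have hbad : ∀ e, (gw_wd W).rx.bad e ↔ x e := fun e => Iff.rfl
  have J := fun v (h1 : 1 ≤ v) (h2 : v < 2 * m - 1) => WD.J_lam (gw_wd W) h1 h2
  have m0 := nB_mono x (show 1 ≤ m - 1 by omega)
  unfold Y at htot
  generalize (gw_wd W).rx = S at *
  -- the sums of the ranks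
  have key : ∀ v, 1 ≤ v → v < 2 * m - 1 → ld v → 2 ≤ v ∧ v + 2 ≤ 2 * m ∧
      ((v % 2 = 1 ∧ (S.J v : ℤ) = m - s + Y x (v / 2)) ∨
       (v % 2 = 0 ∧ ¬ x v ∧ x (v + 1) ∧ (S.J v : ℤ) = m - 1 - s + Y x (v / 2)) ∨
       (v % 2 = 0 ∧ x v ∧ ¬ x (v + 1) ∧ (S.J v : ℤ) = m + 1 - s + Y x (v / 2))) := by
    intro v h1 h3 hv
    obtain ⟨r1, r2⟩ := W.ld_rng h1 (by omega) hv
    have hd := W.dif v h1 (by omega) hv
    obtain ⟨-, -, j3, j4⟩ := J v h1 h3
    have hw := wk_fl x v
    refine ⟨r1, r2, ?_⟩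
    rcases Nat.mod_two_eq_zero_or_one v with pv | pv
    · have hY := fl_Y x (v / 2)
      rw [show 2 * (v / 2) = v by omega] at hY
      right
      by_cases xv : x v
      · right
        have xv' := hd.1 xv
        have := j4 xv xv'
        refine ⟨pv, xv, xv', ?_⟩
        omega
      · left
        have xv' : x (v + 1) := by
          by_contra h
          exact xv (hd.2 h)
        have := j3 xv xv'
        refine ⟨pv, xv, xv', ?_⟩
        omega
    · obtain ⟨f1, f2⟩ := fl_odd x (v / 2)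
      rw [show 2 * (v / 2) + 1 = v by omega] at f1 f2
      left
      by_cases xv : x v
      · have xv' := hd.1 xv
        have := j4 xv xv'
        have := f1 xv
        refine ⟨pv, ?_⟩
        omega
      · have xv' : x (v + 1) := by
          by_contra h
          exact xv (hd.2 h)
        have := j3 xv xv'
        have := f2 xv
        refine ⟨pv, ?_⟩
        omega
  -- levels
  have lev : ∀ v, 2 ≤ v → v + 2 ≤ 2 * m → Y x (v / 2) = nG x (v / 2) - nB x (v / 2) ∧
      1 ≤ nB x (v / 2) ∧ nB x (v / 2) + 1 ≤ nB x m ∧ nG x (v / 2) ≤ nG x m := by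
    intro v r1 r2
    have a1 := nB_mono x (show 1 ≤ v / 2 by omega)
    have a2 := nB_mono x (show v / 2 ≤ m - 1 by omega)
    have a3 := nG_mono x (show v / 2 ≤ m by omega)
    refine ⟨rfl, ?_, ?_, ?_⟩ <;> omega
  have nodd : ∀ z, 1 ≤ z → z < 2 * m - 1 → ld z → ¬ al z →
      z % 2 = 1 ∧ (S.J z : ℤ) = m - s + Y x (z / 2) := by
    intro z z1 z2 hz hz'
    rcases (key z z1 z2 hz).2.2 with h | h | h
    · exact h
    · refine absurd ?_ hz'
      have := hN (z / 2) (by omega) (by omega)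
      rw [show 2 * (z / 2) = z by omega] at this
      exact this hz
    · refine absurd ?_ hz'
      have := hN (z / 2) (by omega) (by omega)
      rw [show 2 * (z / 2) = z by omega] at this
      exact this hz
  -- lower bounds
  have low : ∀ v, 1 ≤ v → v < 2 * m - 1 → ld v → 2 * m - 1 ≤ S.J v + (m - 1) + 1 + n2 := by
    intro v h1 h3 hv
    obtain ⟨r1, r2, k⟩ := key v h1 h3 hv
    obtain ⟨l1, l2, l3, l4⟩ := lev v r1 r2
    rcases hT with hT | ⟨hT, -⟩
    · rcases k with ⟨pv, k⟩ | ⟨pv, -, -, k⟩ | ⟨pv, -, -, k⟩ <;> omega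
    · rcases k with ⟨pv, k⟩ | ⟨pv, xv, -, k⟩ | ⟨pv, -, -, k⟩
      · omega
      · have p := pstep x (v / 2 - 1)
        rw [show v / 2 - 1 + 1 = v / 2 by omega, show 2 * (v / 2 - 1) + 2 = v by omega] at p
        have a3 := nP_mono x (show v / 2 ≤ m by omega)
        by_cases xu : x (2 * (v / 2 - 1) + 1)
        · have := p.2.2.1 xu xv
          omega
        · have := p.2.1 xu xv
          omega
      · omega
  -- the sums at two vertices
  have dd : ∀ a z, 1 ≤ a → a < 2 * m - 1 → 1 ≤ z → z < 2 * m - 1 → al a → ld z → ¬ al z →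
      S.J a ≤ S.J z + S.Q + 1 + dl := by
    intro a z a1 a2 z1 z2 ha hz hz'
    obtain ⟨pz, jz⟩ := nodd z z1 z2 hz hz'
    obtain ⟨ra1, ra2, ka⟩ := key a a1 a2 (W.ald a ha)
    obtain ⟨rz1, rz2, -⟩ := key z z1 z2 hz
    obtain ⟨la1, la2, la3, la4⟩ := lev a ra1 ra2
    obtain ⟨lz1, lz2, lz3, lz4⟩ := lev z rz1 rz2
    rcases hT with hT | ⟨hT, t, t1, t2, t3, t4, t5, t6, t7⟩
    · rcases Nat.lt_or_ge z a with hza | hza
      · have e1 := nB_mono x (show z / 2 ≤ a / 2 by omega)
        have e2 := nG_mono x (show z / 2 ≤ a / 2 by omega)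
        rcases ka with ⟨pv, k⟩ | ⟨pv, -, -, k⟩ | ⟨pv, -, -, k⟩ <;> omega
      · have e1 := nB_mono x (show a / 2 ≤ z / 2 by omega)
        have e2 := nG_mono x (show a / 2 ≤ z / 2 by omega)
        rcases ka with ⟨pv, k⟩ | ⟨pv, -, -, k⟩ | ⟨pv, -, -, k⟩ <;> omega
    · rcases Nat.lt_or_ge z a with hza | hza
      · have e1 := nB_mono x (show z / 2 ≤ a / 2 by omega)
        have e2 := nG_mono x (show z / 2 ≤ a / 2 by omega)
        rcases ka with ⟨pv, k⟩ | ⟨pv, -, -, k⟩ | ⟨pv, xv, xv', k⟩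
        · omega
        · omega
        · by_contra hcon
          -- two bad pairs, all good pairs between `z` and `a`
          have p := pstep x (a / 2 - 1)
          rw [show a / 2 - 1 + 1 = a / 2 by omega, show 2 * (a / 2 - 1) + 2 = a by omega] at p
          have e3 := nB_mono x (show z / 2 ≤ a / 2 - 1 by omega)
          have hR : nR x (a / 2) = nR x (a / 2 - 1) + 1 := by
            by_cases xu : x (2 * (a / 2 - 1) + 1)
            · have := p.1 xu xv
              omega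
            · exact (p.2.2.2 xu xv).2.2.2
          have hjt : a / 2 ≤ t := by
            by_contra hh
            have e4 := nR_mono x (show t ≤ a / 2 - 1 by omega)
            have e5 := nR_mono x (show a / 2 ≤ m by omega)
            omega
          have e6 : a / 2 ≠ t := by
            intro h
            rw [← h] at t3
            omega
          have e7 := nB_mono x (show a / 2 ≤ t - 1 by omega)
          have e8 := nB_mono x (show t - 1 ≤ t by omega)
          have e9 := nG_mono x (show a / 2 ≤ t - 1 by omega)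
          unfold Y at t4
          omega
      · have e1 := nB_mono x (show a / 2 ≤ z / 2 by omega)
        have e2 := nG_mono x (show a / 2 ≤ z / 2 by omega)
        rcases ka with ⟨pv, k⟩ | ⟨pv, -, -, k⟩ | ⟨pv, -, -, k⟩ <;> omega
  refine ⟨?_, ?_, ?_, ?_, ?_, ?_, ?_, ?_, ?_, ?_, ?_, ?_⟩
  · omega
  · omega
  · intro i h1 h3 _ _
    have := rx_MC S h1 h3
    omega
  · intro a h1 h3 h4
    have := low a h1 h3 (W.ald a h4)
    omega
  · intro z h1 h3 h4 _
    have := low z h1 h3 h4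
    omega
  · intro z h1 h3 h4 _
    have := low z h1 h3 h4
    omega
  · intro z h1 h3 h4 h5
    obtain ⟨pz, jz⟩ := nodd z h1 h3 h4 h5
    obtain ⟨rz1, rz2, -⟩ := key z h1 h3 h4
    obtain ⟨lz1, lz2, lz3, lz4⟩ := lev z rz1 rz2
    omega
  · intro a z a1 a2 z1 z2 ha _ hz hz'
    exact dd a z a1 a2 z1 z2 ha hz hz'
  · intro a z a1 a2 z1 z2 ha hb hz hz'
    obtain ⟨pz, jz⟩ := nodd z z1 z2 hz hz'
    obtain ⟨ra1, ra2, ka⟩ := key a a1 a2 (W.ald a ha)
    obtain ⟨rz1, rz2, -⟩ := key z z1 z2 hz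
    obtain ⟨la1, la2, la3, la4⟩ := lev a ra1 ra2
    obtain ⟨lz1, lz2, lz3, lz4⟩ := lev z rz1 rz2
    rw [hbad, kb_oe (W.dif a a1 (by omega) (W.ald a ha))] at hb
    have hn : nG x m + nR x m ≤ n2 + 2 := by
      rcases hT with hT | ⟨hT, -⟩ <;> omega
    rcases Nat.lt_or_ge z a with hza | hza
    · have e1 := nB_mono x (show z / 2 ≤ a / 2 by omega)
      have e2 := nG_mono x (show z / 2 ≤ a / 2 by omega)
      rcases ka with ⟨pv, k⟩ | ⟨pv, -, -, k⟩ | ⟨pv, xv, -, k⟩
      · omega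
      · omega
      · rcases hb with hb | hb
        · exact absurd xv hb.2
        · omega
    · have e1 := nB_mono x (show a / 2 ≤ z / 2 by omega)
      have e2 := nG_mono x (show a / 2 ≤ z / 2 by omega)
      rcases ka with ⟨pv, k⟩ | ⟨pv, -, -, k⟩ | ⟨pv, xv, -, k⟩
      · omega
      · omega
      · rcases hb with hb | hb
        · exact absurd xv hb.2
        · omega
  · intro a z a1 a2 z1 z2 ha _ hz hz' _
    exact dd a z a1 a2 z1 z2 ha hz hz'
  · intro a z a1 a2 z1 z2 ha _ hz hz' _ T hTT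
    have h1 := dd a z a1 a2 z1 z2 ha hz hz'
    have h3 : T = ∅ := by
      rw [Finset.eq_empty_iff_forall_notMem]
      intro i hi
      obtain ⟨i1, i2, -, i3, -, i4⟩ := hTT i hi
      have := low i i1 i2 i3
      omega
    rw [h3, Finset.card_empty]
    omega
  · left
    omega

end Pool.Agent.Lob6
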